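import Mathlib
import Pool.Agent.H660R3.LcsDefs
import Pool.Agent.H660R3.LcsEnd

/-!
# A counterexample to the conformal symplectic Weinstein conjecture

Definitions are in `Pool.Agent.H660R3.LcsDefs` (and `dirD`, `tanChange`, `inChart` in
`Pool.Agent.H660R3.LorDefs`). The example lives on the 4-torus with coordinates `(x,y,z,θ)` modulo 1:
`α = dθ` and `λ = e^{εF} (cos 2πz dx + sin 2πz dy)`, where
`F = Σ_i ρ_i(x,y,z) (θ - E(θ - s_i))`, `ρ_i` is the partition of unity
`cos²2πz cos²πx, cos²2πz sin²πx, sin²2πz cos²πy, sin²2πz sin²πy` of the contact 3-torus, `E` is a smooth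
staircase function with `E(θ+1) = E(θ)+1`, and the steps `E(θ - s_i)` take place in disjoint arcs.
The kernel of `dλ` meets `λ > 0` only where `∂F/∂θ = 0`; along a Reeb curve a single `i` has
`ρ_i E'(θ - s_i) = 1`, and there `x` (or `y`) is strictly monotone and confined to an arc of the circle.
-/
open scoped ContDiff Manifold
open Pool.Agent.H660R3

namespace Pool.Agent.Results.MP_910a86_gt.NoReebCurve

/-- There are a closed connected 4-manifold and an exact lcs structure `(λ, α)` on it with `α` rational that
has no Reeb curve. -/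
theorem result : ∃ (M : Type) (_ : TopologicalSpace M)
    (_ : ChartedSpace (EuclideanSpace ℝ (Fin 4)) M),
    IsManifold (𝓡 4) ∞ M ∧ T2Space M ∧ SecondCountableTopology M ∧ CompactSpace M ∧ ConnectedSpace M ∧
    ∃ lam alpha : OneForm 4 M, IsExactLcs lam alpha ∧ IsRationalForm alpha ∧
      ∀ o : ℝ → M, ¬ IsReebCurve lam o :=
  ⟨QQ (Torus.Zn 4), inferInstance, inferInstance, inferInstance, inferInstance, inferInstance,
    inferInstance, inferInstance, LcsEx.counterexample⟩

end Pool.Agent.Results.MP_910a86_gt.NoReebCurve
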